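import Pool.Agent.Lib.MP_7df46e_an.Defs

open MeasureTheory Filter Topology

namespace Pool.Agent.Lib.MP_7df46e_an

/-- real value of a bit -/
noncomputable def bv (p : Bool) : ℝ := if p then 1 else 0

@[simp] lemma bv_true : bv true = 1 := by simp [bv]
@[simp] lemma bv_false : bv false = 0 := by simp [bv]
lemma bv_nonneg (p : Bool) : 0 ≤ bv p := by cases p <;> simp
lemma bv_le_one (p : Bool) : bv p ≤ 1 := by cases p <;> simp

/-- approximations of the map `T p` -/
noncomputable def A : ℕ → Bool → ℝ → ℝ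
  | 0, _, _ => 0
  | n + 1, p, x => if x ≤ 1 / 2 then A n (!p) (2 * x) else (bv p + A n (!p) (2 * x - 1)) / 2

lemma A_succ_le {n : ℕ} {p : Bool} {x : ℝ} (h : x ≤ 1 / 2) :
    A (n + 1) p x = A n (!p) (2 * x) := by
  simp only [A]; rw [if_pos h]

lemma A_succ_gt {n : ℕ} {p : Bool} {x : ℝ} (h : 1 / 2 < x) :
    A (n + 1) p x = (bv p + A n (!p) (2 * x - 1)) / 2 := by
  simp only [A]; rw [if_neg (not_le.mpr h)]

lemma A_mem (n : ℕ) : ∀ (p : Bool) (x : ℝ), 0 ≤ A n p x ∧ A n p x ≤ 1 := by
  induction n with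
  | zero => intro p x; simp [A]
  | succ n ih =>
    intro p x
    rcases le_or_gt x (1 / 2) with h | h
    · rw [A_succ_le h]; exact ih _ _
    · rw [A_succ_gt h]
      have h1 := ih (!p) (2 * x - 1)
      have h2 := bv_nonneg p
      have h3 := bv_le_one p
      constructor <;> linarith [h1.1, h1.2]

lemma A_le_succ (n : ℕ) : ∀ (p : Bool) (x : ℝ), A n p x ≤ A (n + 1) p x := by
  induction n with
  | zero => intro p x; exact (A_mem 1 p x).1
  | succ n ih =>
    intro p x
    rcases le_or_gt x (1 / 2) with h | h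
    · rw [A_succ_le h, A_succ_le h]; exact ih _ _
    · rw [A_succ_gt h, A_succ_gt h]
      linarith [ih (!p) (2 * x - 1)]

lemma A_mono (p : Bool) (x : ℝ) : Monotone fun n => A n p x :=
  monotone_nat_of_le_succ fun n => A_le_succ n p x

lemma A_measurable (n : ℕ) : ∀ p : Bool, Measurable (A n p) := by
  induction n with
  | zero => intro p; exact measurable_const
  | succ n ih =>
    intro p
    have h1 : Measurable fun x : ℝ => A n (!p) (2 * x) := (ih _).comp (by fun_prop)
    have h2 : Measurable fun x : ℝ => (bv p + A n (!p) (2 * x - 1)) / 2 := by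
      have := (ih (!p)).comp (show Measurable fun x : ℝ => 2 * x - 1 by fun_prop)
      exact ((measurable_const.add this).div_const 2)
    have h3 : A (n + 1) p = fun x : ℝ => if x ≤ 1 / 2 then A n (!p) (2 * x)
        else (bv p + A n (!p) (2 * x - 1)) / 2 := by
      funext x; simp only [A]
    rw [h3]
    exact Measurable.ite measurableSet_Iic h1 h2

/-- The erasing map with the parity offset `p`: a `1` in the first position is replaced by the
bit `p`. -/
noncomputable def T (p : Bool) (x : ℝ) : ℝ := ⨆ n, A n p x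

lemma A_bdd (p : Bool) (x : ℝ) : BddAbove (Set.range fun n => A n p x) :=
  ⟨1, by rintro _ ⟨n, rfl⟩; exact (A_mem n p x).2⟩

lemma T_tendsto (p : Bool) (x : ℝ) : Tendsto (fun n => A n p x) atTop (𝓝 (T p x)) :=
  tendsto_atTop_ciSup (A_mono p x) (A_bdd p x)

lemma T_measurable (p : Bool) : Measurable (T p) :=
  Measurable.iSup fun n => A_measurable n p

lemma T_nonneg (p : Bool) (x : ℝ) : 0 ≤ T p x :=
  ge_of_tendsto' (T_tendsto p x) fun n => (A_mem n p x).1

lemma T_le_one (p : Bool) (x : ℝ) : T p x ≤ 1 :=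
  le_of_tendsto' (T_tendsto p x) fun n => (A_mem n p x).2

lemma T_of_le {p : Bool} {x : ℝ} (h : x ≤ 1 / 2) : T p x = T (!p) (2 * x) := by
  have h1 := (T_tendsto p x).comp (tendsto_add_atTop_nat 1)
  have h2 := T_tendsto (!p) (2 * x)
  refine tendsto_nhds_unique h1 (h2.congr fun n => ?_)
  simp only [Function.comp]
  rw [A_succ_le h]

lemma T_of_gt {p : Bool} {x : ℝ} (h : 1 / 2 < x) : T p x = (bv p + T (!p) (2 * x - 1)) / 2 := by
  have h1 := (T_tendsto p x).comp (tendsto_add_atTop_nat 1)
  have h2 := T_tendsto (!p) (2 * x - 1)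
  refine tendsto_nhds_unique h1 (((h2.const_add (bv p)).div_const 2).congr fun n => ?_)
  simp only [Function.comp]
  rw [A_succ_gt h]

/-! ### Expansions -/

lemma IsExpansion.pos {b : ℕ → ℕ} {x : ℝ} (h : IsExpansion b x) : 0 < x := by
  obtain ⟨k, -, hk⟩ := h.2.1 0
  have h1 : (b k : ℝ) / 2 ^ (k + 1) ≤ x := by
    refine le_hasSum h.2.2 k fun j _ => by positivity
  rw [hk] at h1
  have : (0 : ℝ) < ((1 : ℕ) : ℝ) / 2 ^ (k + 1) := by positivity
  linarith

lemma hasSum_geom_two : HasSum (fun k : ℕ => (1 : ℝ) / 2 ^ (k + 1)) 1 := by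
  have := hasSum_geometric_two' (1 : ℝ)
  refine this.congr_fun fun k => ?_
  rw [pow_succ]; field_simp

lemma IsExpansion.le_one {b : ℕ → ℕ} {x : ℝ} (h : IsExpansion b x) : x ≤ 1 := by
  refine hasSum_le (fun k => ?_) h.2.2 hasSum_geom_two
  have : (b k : ℝ) ≤ 1 := by exact_mod_cast h.1 k
  gcongr

/-- shifting a sequence -/
def sh (b : ℕ → ℕ) : ℕ → ℕ := fun k => b (k + 1)

lemma IsExpansion.tail {b : ℕ → ℕ} {x : ℝ} (h : IsExpansion b x) :
    IsExpansion (sh b) (2 * x - b 0) := by
  refine ⟨fun k => h.1 _, fun N => ?_, ?_⟩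
  · obtain ⟨k, hk, h1⟩ := h.2.1 (N + 1)
    refine ⟨k - 1, by omega, ?_⟩
    simp only [sh]
    rwa [show k - 1 + 1 = k by omega]
  · have h1 := (hasSum_nat_add_iff' 1).mpr h.2.2
    have h2 := h1.mul_left 2
    simp only [Finset.sum_range_one, zero_add, pow_one] at h2
    have h3 : 2 * (x - (b 0 : ℝ) / 2) = 2 * x - b 0 := by ring
    rw [h3] at h2
    refine h2.congr_fun fun k => ?_
    simp only [sh]
    rw [pow_succ (2 : ℝ) (k + 1)]; field_simp

lemma IsExpansion.infinite {b : ℕ → ℕ} {x : ℝ} (h : IsExpansion b x) :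
    (Set.ofPred fun k => b k = 1).Infinite := by
  rw [Set.infinite_iff_exists_gt]
  intro N
  obtain ⟨k, hk, h1⟩ := h.2.1 (N + 1)
  exact ⟨k, h1, by omega⟩

lemma nth_shift {q : ℕ → Prop} [DecidablePred q] (h : (Set.ofPred fun k => q (k + 1)).Infinite)
    (j : ℕ) : Nat.nth q (j + if q 0 then 1 else 0) = Nat.nth (fun k => q (k + 1)) j + 1 := by
  classical
  have h1 : q (Nat.nth (fun k => q (k + 1)) j + 1) := Nat.nth_mem_of_infinite h j
  have h2 : Nat.count (fun k => q (k + 1)) (Nat.nth (fun k => q (k + 1)) j) = j :=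
    Nat.count_nth_of_infinite h j
  have h3 := Nat.nth_count h1
  rw [Nat.count_succ', h2] at h3
  exact h3

/-- the generalised image digits with parity offset `p` -/
noncomputable def rg (p : Bool) (b : ℕ → ℕ) (j : ℕ) : ℕ :=
  if Even (Nat.nth (fun k => b k = 1) j + 1 + p.toNat) then 1 else 0

lemma rg_false (b : ℕ → ℕ) : rg false b = rho b := by
  funext j; simp [rg, rho]

lemma rg_le (p : Bool) (b : ℕ → ℕ) (j : ℕ) : (rg p b j : ℝ) ≤ 1 := by
  unfold rg; split_ifs <;> simp

lemma rg_summable (p : Bool) (b : ℕ → ℕ) : Summable fun j => (rg p b j : ℝ) / 2 ^ (j + 1) := by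
  refine Summable.of_nonneg_of_le (fun j => by positivity) (fun j => ?_) hasSum_geom_two.summable
  have := rg_le p b j
  gcongr

/-- value of the image with the parity offset `p` -/
noncomputable def V (p : Bool) (b : ℕ → ℕ) : ℝ := ∑' j, (rg p b j : ℝ) / 2 ^ (j + 1)

lemma V_nonneg (p : Bool) (b : ℕ → ℕ) : 0 ≤ V p b := tsum_nonneg fun j => by positivity

lemma V_le_one (p : Bool) (b : ℕ → ℕ) : V p b ≤ 1 := by
  rw [← hasSum_geom_two.tsum_eq]
  refine (rg_summable p b).tsum_le_tsum (fun j => ?_) hasSum_geom_two.summable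
  have := rg_le p b j
  gcongr

lemma V_zero {p : Bool} {b : ℕ → ℕ} (h : (Set.ofPred fun k => b (k + 1) = 1).Infinite)
    (h0 : b 0 = 0) : V p b = V (!p) (sh b) := by
  unfold V
  congr 1
  funext j
  have h1 := nth_shift (q := fun k => b k = 1) h j
  simp only [h0, zero_ne_one, if_false, add_zero] at h1
  have h2 : rg p b j = rg (!p) (sh b) j := by
    unfold rg sh
    rw [h1]
    cases p <;> simp [Nat.even_add_one]
  rw [h2]

lemma V_one {p : Bool} {b : ℕ → ℕ} (h : (Set.ofPred fun k => b (k + 1) = 1).Infinite)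
    (h0 : b 0 = 1) : V p b = (bv p + V (!p) (sh b)) / 2 := by
  have h3 : Nat.nth (fun k => b k = 1) 0 = 0 := Nat.nth_zero_of_zero h0
  have h2 : ∀ j, rg p b (j + 1) = rg (!p) (sh b) j := by
    intro j
    have h1 := nth_shift (q := fun k => b k = 1) h j
    simp only [h0, if_true] at h1
    unfold rg sh
    rw [h1]
    cases p <;> simp [Nat.even_add_one]
  have h4 : (rg p b 0 : ℝ) = bv p := by
    unfold rg
    rw [h3]
    cases p <;> simp
  unfold V
  rw [(rg_summable p b).tsum_eq_zero_add, h4]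
  have h5 : ∀ j, (rg p b (j + 1) : ℝ) / 2 ^ (j + 1 + 1) =
      ((rg (!p) (sh b) j : ℝ) / 2 ^ (j + 1)) / 2 := by
    intro j
    rw [h2 j, pow_succ (2 : ℝ) (j + 1)]
    field_simp
  simp_rw [h5]
  rw [tsum_div_const]
  ring

lemma T_sub_V (m : ℕ) : ∀ (k : ℕ) (p : Bool) (b : ℕ → ℕ) (x : ℝ), IsExpansion b x → b k = 1 →
    |T p x - V p b| ≤ 1 / 2 ^ m := by
  induction m with
  | zero =>
    intro k p b x _ _
    rw [abs_le]
    have h1 := T_nonneg p x
    have h2 := T_le_one p x
    have h3 := V_nonneg p b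
    have h4 := V_le_one p b
    norm_num
    constructor <;> linarith
  | succ m ih =>
    intro k
    induction k with
    | zero =>
      intro p b x hb h1
      have ht := hb.tail
      have hgt : 1 / 2 < x := by have := ht.pos; rw [h1] at this; push_cast at this; linarith
      rw [h1] at ht
      push_cast at ht
      rw [T_of_gt hgt, V_one ht.infinite h1]
      obtain ⟨k', -, hk'⟩ := ht.2.1 0
      have := ih k' (!p) (sh b) (2 * x - 1) ht hk'
      rw [show (bv p + T (!p) (2 * x - 1)) / 2 - (bv p + V (!p) (sh b)) / 2 =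
        (T (!p) (2 * x - 1) - V (!p) (sh b)) / 2 by ring, abs_div, abs_two, pow_succ]
      rw [div_le_iff₀ (by norm_num)]
      calc _ ≤ 1 / 2 ^ m := this
        _ = _ := by field_simp
    | succ k ihk =>
      intro p b x hb h1
      have ht := hb.tail
      rcases Nat.le_one_iff_eq_zero_or_eq_one.mp (hb.1 0) with h0 | h0
      · have hle : x ≤ 1 / 2 := by
          have := ht.le_one; rw [h0] at this; push_cast at this; linarith
        rw [h0] at ht
        push_cast at ht
        rw [sub_zero] at ht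
        rw [T_of_le hle, V_zero ht.infinite h0]
        exact ihk (!p) (sh b) (2 * x) ht h1
      · have hgt : 1 / 2 < x := by have := ht.pos; rw [h0] at this; push_cast at this; linarith
        rw [h0] at ht
        push_cast at ht
        rw [T_of_gt hgt, V_one ht.infinite h0]
        obtain ⟨k', -, hk'⟩ := ht.2.1 0
        have := ih k' (!p) (sh b) (2 * x - 1) ht hk'
        rw [show (bv p + T (!p) (2 * x - 1)) / 2 - (bv p + V (!p) (sh b)) / 2 =
          (T (!p) (2 * x - 1) - V (!p) (sh b)) / 2 by ring, abs_div, abs_two, pow_succ]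
        rw [div_le_iff₀ (by norm_num)]
        calc _ ≤ 1 / 2 ^ m := this
          _ = _ := by field_simp

lemma T_eq_V {p : Bool} {b : ℕ → ℕ} {x : ℝ} (h : IsExpansion b x) : T p x = V p b := by
  obtain ⟨k, -, hk⟩ := h.2.1 0
  have h1 : ∀ m : ℕ, |T p x - V p b| ≤ 1 / 2 ^ m := fun m => T_sub_V m k p b x h hk
  have h2 : Tendsto (fun m : ℕ => (1 : ℝ) / 2 ^ m) atTop (𝓝 0) := by
    have := tendsto_pow_atTop_nhds_zero_of_lt_one (show (0 : ℝ) ≤ 1 / 2 by norm_num)
      (by norm_num)
    refine this.congr fun m => ?_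
    rw [one_div_pow]
  have h3 : |T p x - V p b| ≤ 0 := ge_of_tendsto' h2 h1
  have h4 := abs_nonpos_iff.mp h3
  linarith

lemma T_hasSum {b : ℕ → ℕ} {x : ℝ} (h : IsExpansion b x) :
    HasSum (fun j => (rho b j : ℝ) / 2 ^ (j + 1)) (T false x) := by
  rw [T_eq_V h, ← rg_false]
  exact (rg_summable false b).hasSum

/-! ### Existence of expansions -/

/-- the doubling map on `(0, 1]` -/
noncomputable def dbl (x : ℝ) : ℝ := if x ≤ 1 / 2 then 2 * x else 2 * x - 1

/-- the digits of `x` -/
noncomputable def dig (x : ℝ) (k : ℕ) : ℕ := if dbl^[k] x ≤ 1 / 2 then 0 else 1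

lemma dbl_mem {x : ℝ} (h : x ∈ Set.Ioc (0 : ℝ) 1) : dbl x ∈ Set.Ioc (0 : ℝ) 1 := by
  unfold dbl
  split_ifs with h1
  · exact ⟨by linarith [h.1], by linarith⟩
  · exact ⟨by linarith, by linarith [h.2]⟩

lemma dbl_iter_mem {x : ℝ} (h : x ∈ Set.Ioc (0 : ℝ) 1) (k : ℕ) :
    dbl^[k] x ∈ Set.Ioc (0 : ℝ) 1 := by
  induction k with
  | zero => exact h
  | succ k ih => rw [Function.iterate_succ_apply']; exact dbl_mem ih

lemma dbl_iter_succ (x : ℝ) (k : ℕ) : dbl^[k + 1] x = 2 * dbl^[k] x - dig x k := by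
  rw [Function.iterate_succ_apply']
  unfold dig
  generalize dbl^[k] x = y
  unfold dbl
  split_ifs <;> simp

lemma dig_sum (x : ℝ) (n : ℕ) :
    ∑ k ∈ Finset.range n, (dig x k : ℝ) / 2 ^ (k + 1) = x - dbl^[n] x / 2 ^ n := by
  induction n with
  | zero => simp
  | succ n ih =>
    rw [Finset.sum_range_succ, ih, dbl_iter_succ, pow_succ]
    field_simp
    ring

lemma isExpansion_dig {x : ℝ} (h : x ∈ Set.Ioc (0 : ℝ) 1) : IsExpansion (dig x) x := by
  refine ⟨fun k => by unfold dig; split_ifs <;> simp, fun N => ?_, ?_⟩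
  · by_contra hcon
    push Not at hcon
    have h0 : ∀ k ≥ N, dig x k = 0 := by
      intro k hk
      have := hcon k hk
      unfold dig at this ⊢
      split_ifs at this ⊢ <;> simp_all
    have h1 : ∀ m : ℕ, dbl^[N + m] x = 2 ^ m * dbl^[N] x := by
      intro m
      induction m with
      | zero => simp
      | succ m ih =>
        rw [← add_assoc, dbl_iter_succ, ih, h0 _ (by omega), pow_succ]
        push_cast; ring
    have h2 := dbl_iter_mem h N
    obtain ⟨m, hm⟩ := pow_unbounded_of_one_lt (1 / dbl^[N] x) (one_lt_two : (1 : ℝ) < 2)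
    have h3 := (dbl_iter_mem h (N + m)).2
    rw [h1] at h3
    rw [div_lt_iff₀ h2.1] at hm
    linarith
  · rw [hasSum_iff_tendsto_nat_of_nonneg (fun k => by positivity)]
    simp_rw [dig_sum]
    have h2 : Tendsto (fun n : ℕ => dbl^[n] x / 2 ^ n) atTop (𝓝 0) := by
      refine squeeze_zero (g := fun n : ℕ => (1 : ℝ) / 2 ^ n) (fun n => ?_) (fun n => ?_) ?_
      · have := (dbl_iter_mem h n).1
        positivity
      · have := (dbl_iter_mem h n).2
        gcongr
      · have := tendsto_pow_atTop_nhds_zero_of_lt_one (show (0 : ℝ) ≤ 1 / 2 by norm_num)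
          (by norm_num)
        refine this.congr fun m => ?_
        rw [one_div_pow]
    simpa using h2.const_sub x

/-! ### Existence and uniqueness of the erasing map -/

lemma IsErasingMap.eq_T {R : unitInterval → unitInterval} (hR : IsErasingMap R)
    {x : unitInterval} (hx : (0 : ℝ) < x) : (R x : ℝ) = T false x := by
  have h1 := isExpansion_dig (x := (x : ℝ)) ⟨hx, x.2.2⟩
  exact (hR.2 x _ h1).unique (T_hasSum h1)

open Classical in
theorem existsUnique_erasingMap : ∃! R : unitInterval → unitInterval, IsErasingMap R := by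
  refine ⟨fun x => if x = 0 then ⟨2 / 3, by norm_num, by norm_num⟩ else
    ⟨T false x, T_nonneg _ _, T_le_one _ _⟩, ⟨by simp, ?_⟩, ?_⟩
  · intro x b hb
    have h0 : x ≠ 0 := by
      rintro rfl
      exact absurd hb.pos (by simp)
    simp only [h0, if_false]
    exact T_hasSum hb
  · intro R hR
    funext x
    by_cases hx : x = 0
    · simp only [hx, if_true]
      exact Subtype.ext hR.1
    · simp only [hx, if_false]
      have : (0 : ℝ) < x := by
        rcases lt_or_eq_of_le x.2.1 with h | h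
        · exact h
        · exact absurd (Subtype.ext h.symm) hx
      exact Subtype.ext (hR.eq_T this)

end Pool.Agent.Lib.MP_7df46e_an
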