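import Pool.Agent.Lib.MP_7df46e_an.Words

open MeasureTheory Filter Topology

namespace Pool.Agent.Lib.MP_7df46e_an

/-- `rwi n w` is the `n`-fold image of `w` under the substitution -/
def rwi : ℕ → List Bool → List Bool
  | 0, w => w
  | n + 1, w => rwi n (rw' false w)

lemma exists_rwi_nil (L : ℕ) : ∀ w : List Bool, w.length ≤ L → ∃ n, rwi n w = [] := by
  induction L with
  | zero =>
    intro w hw
    exact ⟨0, List.length_eq_zero_iff.mp (Nat.le_zero.mp hw)⟩
  | succ L ih =>
    intro w hw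
    by_cases h : w = []
    · exact ⟨0, h⟩
    · obtain ⟨n, hn⟩ := ih (rw' false (rw' false w))
        (Nat.lt_succ_iff.mp ((rw'_rw'_length_lt h).trans_le hw))
      exact ⟨n + 2, hn⟩

lemma erasing_append (R : unitInterval → unitInterval) (hR : IsErasingMap R) (n : ℕ) :
    ∀ w : List Bool, rwi n w = [] → ∀ v : List Bool, ∃ u : List Bool,
      ∀ x : unitInterval, (x : ℝ) ∈ J (w ++ u) → (R^[n] x : ℝ) ∈ J v := by
  induction n with
  | zero =>
    intro w hw v
    have hw' : w = [] := hw
    subst hw'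
    exact ⟨v, fun x hx => hx⟩
  | succ n ih =>
    intro w hw v
    obtain ⟨u, hu⟩ := ih (rw' false w) hw v
    obtain ⟨u', hu'⟩ := rw'_surj (u ++ [false, true]) (ep false w)
    refine ⟨u', fun x hx => ?_⟩
    rw [Function.iterate_succ_apply]
    apply hu
    obtain ⟨y, hy, hyx⟩ := hx
    have hxpos : (0 : ℝ) < x := by rw [← hyx]; exact (Phi_mem_Ioc hy).1
    rw [hR.eq_T hxpos, ← hyx, T_Phi _ hy, rw'_append, hu', ← List.append_assoc, Phi_append]
    refine ⟨_, ?_, rfl⟩
    have h1 := T_nonneg (ep false (w ++ u')) y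
    have h2 := T_le_one (ep false (w ++ u')) y
    simp only [Phi, ph, bv_false, bv_true]
    constructor <;> linarith

theorem dense_orbit_residual (R : unitInterval → unitInterval) (hR : IsErasingMap R) :
    DenseOrbitSet R ∈ residual unitInterval := by
  -- the open dense set of points visiting `J v`
  let U : List Bool → Set unitInterval := fun v =>
    ⋃ (q : {q : ℕ × List Bool // ∀ x : unitInterval, (x : ℝ) ∈ J q.2 →
      (R^[q.1] x : ℝ) ∈ J v}), JO q.1.2
  have hUo : ∀ v, IsOpen (U v) := fun v => isOpen_iUnion fun q => JO_isOpen _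
  have hUd : ∀ v, Dense (U v) := by
    intro v
    rw [dense_iff_inter_open]
    intro O hO hne
    obtain ⟨w, hw⟩ := exists_J_subset hO hne
    obtain ⟨n, hn⟩ := exists_rwi_nil _ w le_rfl
    obtain ⟨u, hu⟩ := erasing_append R hR n w hn v
    obtain ⟨x, hx⟩ := JO_nonempty (w ++ u)
    refine ⟨x, hw x ?_, Set.mem_iUnion.mpr ⟨⟨(n, w ++ u), hu⟩, hx⟩⟩
    obtain ⟨y, hy, hyx⟩ := JO_subset hx
    rw [Phi_append] at hyx
    exact ⟨_, Phi_mem_Ioc hy, hyx⟩
  have hres : (⋂ v, U v) ∈ residual unitInterval := by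
    rw [countable_iInter_mem]
    exact fun v => residual_of_dense_open (hUo v) (hUd v)
  refine Filter.mem_of_superset hres fun x hx => ?_
  show Dense _
  rw [dense_iff_inter_open]
  intro O hO hne
  obtain ⟨v, hv⟩ := exists_J_subset hO hne
  have hxv := Set.mem_iInter.mp hx v
  obtain ⟨q, hq⟩ := Set.mem_iUnion.mp hxv
  exact ⟨R^[q.1.1] x, hv _ (q.2 x (JO_subset hq)), q.1.1, rfl⟩

theorem dense_orbit_not_isMeagre (R : unitInterval → unitInterval) (hR : IsErasingMap R) :
    ¬ IsMeagre (DenseOrbitSet R) := by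
  intro h
  have h1 := Filter.inter_mem (dense_orbit_residual R hR) h
  rw [Set.inter_compl_self] at h1
  have h2 := dense_of_mem_residual h1
  exact Set.not_nonempty_empty h2.nonempty

end Pool.Agent.Lib.MP_7df46e_an
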