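import Mathlib

/-!
# The erasing substitution map: definitions

Definitions used in the statements about problem MP_7df46e_an.  Positions are counted
from `0` in Lean, so the paper's digit `b_{k+1}` is `b k`.
-/

namespace Pool.Agent.Lib.MP_7df46e_an

/-- `b` is the binary expansion of `x` that is not eventually `0`: the digits `b k` lie in
`{0,1}`, infinitely many of them are `1`, and `x = ∑ b k / 2 ^ (k + 1)`. -/
def IsExpansion (b : ℕ → ℕ) (x : ℝ) : Prop :=
  (∀ k, b k ≤ 1) ∧ (∀ N, ∃ k ≥ N, b k = 1) ∧ HasSum (fun k => (b k : ℝ) / 2 ^ (k + 1)) x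

/-- The image of a sequence with infinitely many `1`s under the erasing substitution: every
`0` is deleted, and the `j`-th surviving symbol (the `j`-th `1`, whose position counted from
`1` is `Nat.nth (fun k => b k = 1) j + 1`) is replaced by `1` if this position is even and by
`0` if it is odd. -/
noncomputable def rho (b : ℕ → ℕ) (j : ℕ) : ℕ :=
  if Even (Nat.nth (fun k => b k = 1) j + 1) then 1 else 0

/-- `R` is the erasing map: `R 0 = 2 / 3`, and `R x = ∑ c_j / 2 ^ (j + 1)` where `c = rho b`
is the image of the binary expansion `b` of `x` that is not eventually `0`. -/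
def IsErasingMap (R : unitInterval → unitInterval) : Prop :=
  (R 0 : ℝ) = 2 / 3 ∧
    ∀ (x : unitInterval) (b : ℕ → ℕ), IsExpansion b (x : ℝ) →
      HasSum (fun j => (rho b j : ℝ) / 2 ^ (j + 1)) (R x : ℝ)

/-- The set of points of the unit interval whose forward orbit is dense. -/
def DenseOrbitSet (R : unitInterval → unitInterval) : Set unitInterval :=
  {x | Dense (Set.range fun n : ℕ => R^[n] x)}

end Pool.Agent.Lib.MP_7df46e_an
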