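import Pool.Agent.Lib.MP_7df46e_an.Laws

open MeasureTheory Filter Topology
open scoped ENNReal

namespace Pool.Agent.Lib.MP_7df46e_an

lemma lam_selfSimilar : lam = (1 / 2 : ℝ≥0∞) • Measure.map (ph false) lam +
    (1 / 2 : ℝ≥0∞) • Measure.map (ph true) lam := by
  have := map_split (f := id) measurable_id
  rw [Measure.map_id] at this
  exact this

/-- The composition `T p' ∘ T false` preserves Lebesgue measure. -/
lemma kap_ff : kap false false = lam := by
  refine selfSimilar_unique ?_ lam_selfSimilar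
  have h1 := kap_false false
  rw [Bool.not_false, kap_true false, kap_true true, Bool.not_false, Bool.not_true, kap_tf] at h1
  generalize hK : kap false false = K at *
  have hKp : IsProbabilityMeasure K := by rw [← hK]; infer_instance
  ext B hB
  have h2 := congrArg (fun m : Measure ℝ => m B) h1
  simp only [Measure.add_apply, Measure.smul_apply, smul_eq_mul] at h2 ⊢
  have hp : ∀ q : Bool, IsProbabilityMeasure (Measure.map (ph q) K) := fun q =>
    Measure.isProbabilityMeasure_map (ph_measurable q).aemeasurable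
  have f1 : K B ≠ ∞ := measure_ne_top _ _
  have f2 : (Measure.map (ph false) K) B ≠ ∞ := by
    have := hp false; exact measure_ne_top _ _
  have f3 : (Measure.map (ph true) K) B ≠ ∞ := by
    have := hp true; exact measure_ne_top _ _
  rw [← ENNReal.toReal_eq_toReal_iff' f1 (by finiteness)]
  have h3 := congrArg ENNReal.toReal h2
  rw [ENNReal.toReal_add (by finiteness) (by finiteness)] at h3 ⊢
  rw [ENNReal.toReal_mul, ENNReal.toReal_mul, ENNReal.toReal_add (by finiteness) (by finiteness),
    ENNReal.toReal_add (by finiteness) (by finiteness)] at h3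
  simp only [ENNReal.toReal_mul, ENNReal.toReal_div, ENNReal.toReal_one, ENNReal.toReal_ofNat]
    at h3 ⊢
  linarith

/-- the class of mixtures of the two halves of Lebesgue measure -/
def ClassM (m : Measure ℝ) : Prop :=
  ∃ a b : ℝ≥0∞, a + b = 1 ∧ m = a • Measure.map (ph true) lam + b • Measure.map (ph false) lam

lemma classM_lam : ClassM lam := by
  refine ⟨1 / 2, 1 / 2, by rw [one_div, ENNReal.inv_two_add_inv_two], ?_⟩
  conv_lhs => rw [lam_selfSimilar]
  rw [add_comm]

lemma classM_ph (p : Bool) : ClassM (Measure.map (ph p) lam) := by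
  cases p
  · exact ⟨0, 1, by simp, by simp⟩
  · exact ⟨1, 0, by simp, by simp⟩

lemma ClassM.convex {m m' : Measure ℝ} (h : ClassM m) (h' : ClassM m') {c d : ℝ≥0∞}
    (hcd : c + d = 1) : ClassM (c • m + d • m') := by
  obtain ⟨a, b, hab, rfl⟩ := h
  obtain ⟨a', b', hab', rfl⟩ := h'
  refine ⟨c * a + d * a', c * b + d * b', ?_, ?_⟩
  · calc c * a + d * a' + (c * b + d * b') = c * (a + b) + d * (a' + b') := by ring
      _ = 1 := by rw [hab, hab', mul_one, mul_one, hcd]
  · simp only [smul_add, add_smul, smul_smul]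
    abel

lemma half_add_half : (1 / 2 : ℝ≥0∞) + 1 / 2 = 1 := by
  rw [one_div, ENNReal.inv_two_add_inv_two]

lemma kap_p_false (p' : Bool) : kap p' false = lam := by
  cases p'
  · exact kap_ff
  · rw [kap_tf, kap_ff]

lemma kap_p_true (p' : Bool) : kap p' true = (1 / 2 : ℝ≥0∞) • lam +
    (1 / 2 : ℝ≥0∞) • Measure.map (ph p') lam := by
  rw [kap_true, kap_p_false, kap_p_false]

lemma classM_kap (p' p : Bool) : ClassM (kap p' p) := by
  cases p
  · rw [kap_p_false]; exact classM_lam
  · rw [kap_p_true]; exact classM_lam.convex (classM_ph p') half_add_half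

lemma map_ph_ac (p : Bool) : Measure.map (ph p) lam ≪ lam := by
  refine Measure.AbsolutelyContinuous.mk fun B hB h0 => ?_
  rw [Measure.map_apply (ph_measurable p) hB]
  have h1 := lam_split hB
  rw [h0] at h1
  have h2 := (add_eq_zero.mp h1.symm)
  have h3 : ∀ c : ℝ≥0∞, (1 / 2) * c = 0 → c = 0 := fun c hc => by
    rcases mul_eq_zero.mp hc with h | h
    · simp at h
    · exact h
  cases p
  · exact h3 _ h2.1
  · exact h3 _ h2.2

lemma ClassM.ac {m : Measure ℝ} (h : ClassM m) : m ≪ lam := by
  obtain ⟨a, b, -, rfl⟩ := h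
  refine Measure.AbsolutelyContinuous.mk fun B hB h0 => ?_
  rw [Measure.add_apply, Measure.smul_apply, Measure.smul_apply, map_ph_ac true h0,
    map_ph_ac false h0]
  simp

lemma map_TT_ph_false (p' p : Bool) :
    Measure.map (fun x => T p' (T p x)) (Measure.map (ph false) lam) = kap p' (!p) := by
  rw [Measure.map_map (TT_measurable p' p) (ph_measurable false)]
  exact Measure.map_congr (TT_ph_false_ae p' p)

lemma map_TT_ph_true_false (p' : Bool) :
    Measure.map (fun x => T p' (T false x)) (Measure.map (ph true) lam) = kap (!p') true := by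
  rw [Measure.map_map (TT_measurable p' false) (ph_measurable true)]
  exact Measure.map_congr (TT_ph_true_false_ae p')

lemma map_TT_ph_true_true (p' : Bool) :
    Measure.map (fun x => T p' (T true x)) (Measure.map (ph true) lam) =
      Measure.map (ph p') lam := by
  rw [Measure.map_map (TT_measurable p' true) (ph_measurable true)]
  have h1 : Measure.map (fun x => T p' (T true (ph true x))) lam =
      Measure.map (fun x => ph p' (T (!p') (T false x))) lam :=
    Measure.map_congr (TT_ph_true_true_ae p')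
  have h2 : Measure.map (fun x => ph p' (T (!p') (T false x))) lam =
      Measure.map (ph p') (kap (!p') false) := by
    unfold kap
    rw [Measure.map_map (ph_measurable p') (TT_measurable (!p') false)]
    rfl
  rw [h2, kap_p_false] at h1
  exact h1

lemma ClassM.step {m : Measure ℝ} (h : ClassM m) (p' p : Bool) :
    ClassM (Measure.map (fun x => T p' (T p x)) m) := by
  obtain ⟨a, b, hab, rfl⟩ := h
  rw [Measure.map_add _ _ (TT_measurable p' p), Measure.map_smul, Measure.map_smul,
    map_TT_ph_false]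
  refine ClassM.convex ?_ (classM_kap _ _) hab
  cases p
  · rw [map_TT_ph_true_false]; exact classM_kap _ _
  · rw [map_TT_ph_true_true]; exact classM_ph _

lemma kap_true_ge (p' : Bool) (B : Set ℝ) : (1 / 2) * lam B ≤ kap p' true B := by
  rw [kap_p_true, Measure.add_apply, Measure.smul_apply, Measure.smul_apply]
  exact le_self_add

lemma ClassM.low {m : Measure ℝ} (h : ClassM m) (B : Set ℝ) :
    (1 / 2) * lam B ≤ Measure.map (fun x => T false (T false x)) m B := by
  obtain ⟨a, b, hab, rfl⟩ := h
  rw [Measure.map_add _ _ (TT_measurable _ _), Measure.map_smul, Measure.map_smul,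
    map_TT_ph_false, map_TT_ph_true_false, Measure.add_apply, Measure.smul_apply,
    Measure.smul_apply, smul_eq_mul, smul_eq_mul]
  calc (1 / 2) * lam B = (a + b) * ((1 / 2) * lam B) := by rw [hab, one_mul]
    _ = a * ((1 / 2) * lam B) + b * ((1 / 2) * lam B) := by rw [add_mul]
    _ ≤ _ := by
      gcongr
      · exact kap_true_ge _ B
      · exact kap_true_ge _ B

/-! ### The iterates of the map on the real line -/

/-- the erasing map on the real line -/
noncomputable def Rr (x : ℝ) : ℝ := if x ≤ 0 then 2 / 3 else T false x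

lemma Rr_measurable : Measurable Rr :=
  Measurable.ite measurableSet_Iic measurable_const (T_measurable false)

lemma Rr_iter_measurable (n : ℕ) : Measurable (Rr^[n]) := Rr_measurable.iterate n

lemma Rr_eq {x : ℝ} (h : 0 < x) : Rr x = T false x := by
  unfold Rr; rw [if_neg (not_le.mpr h)]

lemma Rr_Rr_Phi (w : List Bool) : ∀ᵐ x ∂lam, Rr (Rr (Phi w x)) =
    Phi (rw' false (rw' false w)) (T (ep false (rw' false w)) (T (ep false w) x)) := by
  filter_upwards [lam_ae_mem, T_mem_ae (ep false w)] with x hx hx'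
  rw [Rr_eq (Phi_mem_Ioc hx).1, T_Phi w hx, Rr_eq (Phi_mem_Ioc hx').1, T_Phi _ hx']

lemma main_bound (L : ℕ) : ∀ w : List Bool, w.length ≤ L → ∀ m : Measure ℝ, ClassM m →
    ∃ N, ∀ B, MeasurableSet B →
      (1 / 2) * lam B ≤ m ((fun x => Rr^[N] (Phi w x)) ⁻¹' B) := by
  induction L with
  | zero =>
    intro w hw m hm
    have hw' : w = [] := List.length_eq_zero_iff.mp (Nat.le_zero.mp hw)
    subst hw'
    refine ⟨2, fun B hB => (hm.low B).trans (le_of_eq ?_)⟩
    rw [Measure.map_apply (TT_measurable _ _) hB]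
    refine measure_congr ?_
    filter_upwards [hm.ac.ae_le (Rr_Rr_Phi [])] with x hx
    have hx2 : Rr^[2] (Phi [] x) = T false (T false x) := hx
    show (T false (T false x) ∈ B) = (Rr^[2] (Phi [] x) ∈ B)
    rw [hx2]
  | succ L ih =>
    intro w hw m hm
    by_cases h : w = []
    · exact ih w (by simp [h]) m hm
    · obtain ⟨N, hN⟩ := ih (rw' false (rw' false w))
        (Nat.lt_succ_iff.mp ((rw'_rw'_length_lt h).trans_le hw)) _
        (hm.step (ep false (rw' false w)) (ep false w))
      refine ⟨N + 2, fun B hB => (hN B hB).trans (le_of_eq ?_)⟩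
      have hms : MeasurableSet ((fun x => Rr^[N] (Phi (rw' false (rw' false w)) x)) ⁻¹' B) :=
        ((Rr_iter_measurable N).comp (Phi_measurable _)) hB
      rw [Measure.map_apply (TT_measurable _ _) hms]
      refine measure_congr ?_
      filter_upwards [hm.ac.ae_le (Rr_Rr_Phi w)] with x hx
      have hx2 : Rr^[N + 2] (Phi w x) = Rr^[N] (Rr (Rr (Phi w x))) := rfl
      show (Rr^[N] (Phi (rw' false (rw' false w))
        (T (ep false (rw' false w)) (T (ep false w) x))) ∈ B) = (Rr^[N + 2] (Phi w x) ∈ B)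
      rw [hx2, hx]

/-! ### Dyadic intervals and the density theorem -/

lemma J_eq (w : List Bool) : J w = Set.Ioc (Phi w 0) (Phi w 0 + 1 / 2 ^ w.length) := by
  have h : (0 : ℝ) < 2 ^ w.length := by positivity
  ext x
  constructor
  · rintro ⟨y, hy, rfl⟩
    rw [Phi_eq w y]
    constructor
    · have := div_pos hy.1 h
      linarith
    · have := (div_le_div_iff_of_pos_right h).mpr hy.2
      linarith
  · intro hx
    refine ⟨(x - Phi w 0) * 2 ^ w.length, ⟨?_, ?_⟩, ?_⟩
    · have := hx.1
      have : 0 < x - Phi w 0 := by linarith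
      positivity
    · have := hx.2
      have h2 : x - Phi w 0 ≤ 1 / 2 ^ w.length := by linarith
      rwa [le_div_iff₀ h] at h2
    · rw [Phi_eq]
      field_simp
      ring

lemma Phi_injective (w : List Bool) : Function.Injective (Phi w) := by
  intro x y h
  rw [Phi_eq w x, Phi_eq w y] at h
  have h1 : (0 : ℝ) < 2 ^ w.length := by positivity
  have h2 : x / 2 ^ w.length = y / 2 ^ w.length := by linarith
  exact (div_left_inj' h1.ne').mp h2

lemma volume_inter_J (w : List Bool) (A : Set ℝ) (hA : MeasurableSet A) :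
    volume (A ∩ J w) = (2 ^ w.length)⁻¹ * lam (Phi w ⁻¹' A) := by
  have h1 : Phi w ⁻¹' (A ∩ J w) = Phi w ⁻¹' A ∩ Set.Ioc 0 1 := by
    rw [Set.preimage_inter]
    congr 1
    exact Set.preimage_image_eq _ (Phi_injective w)
  have h2 := volume_Phi_preimage w (A ∩ J w)
  rw [h1] at h2
  rw [lam, Measure.restrict_apply (Phi_measurable w hA), h2, ← mul_assoc,
    ENNReal.inv_mul_cancel (by simp) (by simp), one_mul]

/-- The set of the points of `(0, 1]` whose orbit avoids `B`. -/
def Avoid (B : Set ℝ) : Set ℝ := {x | x ∈ Set.Ioc (0 : ℝ) 1 ∧ ∀ n, Rr^[n] x ∉ B}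

lemma Avoid_measurable {B : Set ℝ} (hB : MeasurableSet B) : MeasurableSet (Avoid B) := by
  have h : Avoid B = Set.Ioc (0 : ℝ) 1 ∩ ⋂ n, (Rr^[n]) ⁻¹' Bᶜ := by
    ext x; simp [Avoid]
  rw [h]
  exact measurableSet_Ioc.inter (MeasurableSet.iInter fun n => Rr_iter_measurable n hB.compl)

lemma Avoid_inter_J {B : Set ℝ} (hB : MeasurableSet B) (w : List Bool) :
    volume (Avoid B ∩ J w) ≤ (2 ^ w.length)⁻¹ * (1 - (1 / 2) * lam B) := by
  rw [volume_inter_J w _ (Avoid_measurable hB)]
  gcongr
  obtain ⟨N, hN⟩ := main_bound _ w le_rfl lam classM_lam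
  have h1 := hN B hB
  have hm : MeasurableSet ((fun x => Rr^[N] (Phi w x)) ⁻¹' B) :=
    ((Rr_iter_measurable N).comp (Phi_measurable w)) hB
  have h2 : lam (Phi w ⁻¹' Avoid B) ≤ lam ((fun x => Rr^[N] (Phi w x)) ⁻¹' B)ᶜ := by
    refine measure_mono fun x hx => ?_
    exact hx.2 N
  refine h2.trans ?_
  rw [prob_compl_eq_one_sub hm]
  exact tsub_le_tsub_left h1 1

theorem volume_Avoid {B : Set ℝ} (hB : MeasurableSet B) (h0 : 0 < lam B) :
    volume (Avoid B) = 0 := by
  have hd := IsUnifLocDoublingMeasure.ae_tendsto_measure_inter_div (volume : Measure ℝ)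
    (Avoid B) 1
  have hc : (1 : ℝ≥0∞) - (1 / 2) * lam B < 1 := by
    refine ENNReal.sub_lt_self (by simp) (by simp) ?_
    simp [h0.ne']
  have hfalse : ∀ᵐ x ∂(volume.restrict (Avoid B)), False := by
    filter_upwards [hd, ae_restrict_mem (Avoid_measurable hB)] with x hx hxA
    choose v hv using fun n => exists_word n x hxA.1
    have hδ : Tendsto (fun n : ℕ => (1 : ℝ) / 2 ^ (n + 1)) atTop (𝓝[>] 0) := by
      rw [tendsto_nhdsWithin_iff]
      refine ⟨?_, Eventually.of_forall fun n => by simp⟩
      have := tendsto_pow_atTop_nhds_zero_of_lt_one (show (0 : ℝ) ≤ 1 / 2 by norm_num)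
        (by norm_num)
      refine (this.comp (tendsto_add_atTop_nat 1)).congr fun n => ?_
      simp only [Function.comp]
      rw [one_div_pow]
    have hball : ∀ n, Metric.closedBall (Phi (v n) 0 + 1 / 2 ^ (n + 1)) (1 / 2 ^ (n + 1)) =
        Set.Icc (Phi (v n) 0) (Phi (v n) 0 + 1 / 2 ^ n) := by
      intro n
      rw [Real.closedBall_eq_Icc]
      congr 1
      · ring
      · rw [pow_succ]; field_simp; ring
    have hJ : ∀ n, J (v n) = Set.Ioc (Phi (v n) 0) (Phi (v n) 0 + 1 / 2 ^ n) := by
      intro n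
      rw [J_eq, (hv n).1]
    have hmem : ∀ᶠ n in atTop, x ∈ Metric.closedBall (Phi (v n) 0 + 1 / 2 ^ (n + 1))
        (1 * (1 / 2 ^ (n + 1))) := by
      refine Eventually.of_forall fun n => ?_
      rw [one_mul, hball]
      have := (hv n).2
      rw [hJ] at this
      exact Set.Ioc_subset_Icc_self this
    have hlim := hx (fun n => Phi (v n) 0 + 1 / 2 ^ (n + 1)) (fun n => 1 / 2 ^ (n + 1)) hδ hmem
    have hbound : ∀ n, volume (Avoid B ∩ Metric.closedBall (Phi (v n) 0 + 1 / 2 ^ (n + 1))
        (1 / 2 ^ (n + 1))) / volume (Metric.closedBall (Phi (v n) 0 + 1 / 2 ^ (n + 1))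
        ((1 : ℝ) / 2 ^ (n + 1))) ≤ 1 - (1 / 2) * lam B := by
      intro n
      rw [hball]
      have e1 : volume (Avoid B ∩ Set.Icc (Phi (v n) 0) (Phi (v n) 0 + 1 / 2 ^ n)) =
          volume (Avoid B ∩ J (v n)) := by
        rw [hJ]
        refine measure_congr ?_
        exact (ae_eq_refl _).inter Ioc_ae_eq_Icc.symm
      have e2 : volume (Set.Icc (Phi (v n) 0) (Phi (v n) 0 + 1 / 2 ^ n)) = (2 ^ n)⁻¹ := by
        rw [Real.volume_Icc, add_sub_cancel_left, one_div,
          ENNReal.ofReal_inv_of_pos (by positivity), ENNReal.ofReal_pow (by norm_num)]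
        simp
      rw [e1, e2, ENNReal.div_eq_inv_mul, inv_inv]
      have e3 := Avoid_inter_J hB (v n)
      rw [(hv n).1] at e3
      calc 2 ^ n * volume (Avoid B ∩ J (v n)) ≤ 2 ^ n * ((2 ^ n)⁻¹ * (1 - (1 / 2) * lam B)) := by
            gcongr
        _ = 1 - (1 / 2) * lam B := by
            rw [← mul_assoc, ENNReal.mul_inv_cancel (by simp) (by simp), one_mul]
    have := le_of_tendsto' hlim hbound
    exact absurd this (not_le.mpr hc)
  have h1 := ae_iff.mp hfalse
  simpa using h1

end Pool.Agent.Lib.MP_7df46e_an
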