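import Pool.Agent.Lib.MP_7df46e_an.Ergodic

open MeasureTheory Filter Topology
open scoped ENNReal

namespace Pool.Agent.Lib.MP_7df46e_an

lemma erasing_coe {R : unitInterval → unitInterval} (hR : IsErasingMap R) (x : unitInterval) :
    (R x : ℝ) = Rr x := by
  by_cases h : (0 : ℝ) < x
  · rw [hR.eq_T h, Rr_eq h]
  · have h0 : x = 0 := Subtype.ext (le_antisymm (not_lt.mp h) x.2.1)
    unfold Rr
    rw [if_pos (not_lt.mp h), h0]
    exact hR.1

lemma erasing_coe_iter {R : unitInterval → unitInterval} (hR : IsErasingMap R) (n : ℕ)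
    (x : unitInterval) : (R^[n] x : ℝ) = Rr^[n] x := by
  induction n with
  | zero => rfl
  | succ n ih => rw [Function.iterate_succ_apply', Function.iterate_succ_apply', erasing_coe hR, ih]

lemma J_measurable (w : List Bool) : MeasurableSet (J w) := by
  rw [J_eq]; exact measurableSet_Ioc

lemma lam_J_pos (w : List Bool) : 0 < lam (J w) := by
  have h1 : J w ⊆ Set.Ioc 0 1 := by
    rintro _ ⟨y, hy, rfl⟩
    exact Phi_mem_Ioc hy
  rw [lam, Measure.restrict_apply (J_measurable w), Set.inter_eq_left.mpr h1, J_eq,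
    Real.volume_Ioc]
  simp

theorem volume_dense_orbit {R : unitInterval → unitInterval} (hR : IsErasingMap R) :
    volume (DenseOrbitSet R)ᶜ = 0 := by
  rw [← volume_image_subtype_coe measurableSet_Icc]
  have hsub : (Subtype.val '' (DenseOrbitSet R)ᶜ : Set ℝ) ⊆
      {0} ∪ ⋃ w : List Bool, Avoid (J w) := by
    rintro _ ⟨x, hx, rfl⟩
    by_contra hcon
    rw [Set.mem_union, not_or, Set.mem_iUnion, not_exists] at hcon
    obtain ⟨h0, h1⟩ := hcon
    have hpos : (0 : ℝ) < x := lt_of_le_of_ne x.2.1 (fun h => h0 h.symm)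
    apply hx
    show Dense _
    rw [dense_iff_inter_open]
    intro O hO hne
    obtain ⟨w, hw⟩ := exists_J_subset hO hne
    have h2 : ¬ ∀ n, Rr^[n] (x : ℝ) ∉ J w := fun h => h1 w ⟨⟨hpos, x.2.2⟩, h⟩
    push Not at h2
    obtain ⟨n, hn⟩ := h2
    rw [← erasing_coe_iter hR] at hn
    exact ⟨R^[n] x, hw _ hn, n, rfl⟩
  refine measure_mono_null hsub ?_
  rw [measure_union_null_iff]
  refine ⟨by simp, ?_⟩
  rw [measure_iUnion_null_iff]
  exact fun w => volume_Avoid (J_measurable w) (lam_J_pos w)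

theorem volume_dense_orbit_eq_one {R : unitInterval → unitInterval} (hR : IsErasingMap R) :
    volume (DenseOrbitSet R) = 1 := by
  have h1 : ∀ᵐ x : unitInterval, x ∈ DenseOrbitSet R := volume_dense_orbit hR
  have h2 : DenseOrbitSet R =ᵐ[volume] Set.univ := eventuallyEq_univ.mpr h1
  rw [measure_congr h2]
  exact measure_univ

end Pool.Agent.Lib.MP_7df46e_an
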