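import Pool.Agent.Lib.MP_7df46e_an.Words

open MeasureTheory Filter Topology
open scoped ENNReal

namespace Pool.Agent.Lib.MP_7df46e_an

/-- Lebesgue measure on `(0, 1]` -/
noncomputable def lam : Measure ℝ := volume.restrict (Set.Ioc 0 1)

instance lam_prob : IsProbabilityMeasure lam := ⟨by simp [lam]⟩

lemma lam_ae_mem : ∀ᵐ x ∂lam, x ∈ Set.Ioc (0 : ℝ) 1 := ae_restrict_mem measurableSet_Ioc

lemma ph_measurable (p : Bool) : Measurable (ph p) := (ph_continuous p).measurable

lemma Phi_measurable (w : List Bool) : Measurable (Phi w) := (Phi_continuous w).measurable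

lemma volume_ph_preimage (p : Bool) (B : Set ℝ) : volume (ph p ⁻¹' B) = 2 * volume B := by
  have h : ph p = (fun x => (1 / 2 : ℝ) * x) ∘ (fun x => x + bv p) := by
    funext x; simp [ph]; ring
  rw [h, Set.preimage_comp, measure_preimage_add_right,
    Real.volume_preimage_mul_left (by norm_num)]
  norm_num

lemma volume_Phi_preimage (w : List Bool) : ∀ B : Set ℝ,
    volume (Phi w ⁻¹' B) = 2 ^ w.length * volume B := by
  induction w with
  | nil => intro B; simp [Phi]
  | cons p t ih =>
    intro B
    have : Phi (p :: t) ⁻¹' B = Phi t ⁻¹' (ph p ⁻¹' B) := rfl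
    rw [this, ih, volume_ph_preimage, List.length_cons, pow_succ]
    ring

lemma ph_preimage_inter (p : Bool) (B : Set ℝ) :
    ph p ⁻¹' (B ∩ Set.Ioc (bv p / 2) ((bv p + 1) / 2)) = ph p ⁻¹' B ∩ Set.Ioc 0 1 := by
  ext x
  simp only [Set.mem_preimage, Set.mem_inter_iff, Set.mem_Ioc, ph]
  constructor
  · rintro ⟨h1, h2, h3⟩
    exact ⟨h1, by linarith, by linarith⟩
  · rintro ⟨h1, h2, h3⟩
    exact ⟨h1, by linarith, by linarith⟩

lemma lam_ph (p : Bool) {B : Set ℝ} (hB : MeasurableSet B) :
    lam (ph p ⁻¹' B) = 2 * volume (B ∩ Set.Ioc (bv p / 2) ((bv p + 1) / 2)) := by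
  rw [lam, Measure.restrict_apply (ph_measurable p hB), ← ph_preimage_inter, volume_ph_preimage]

lemma lam_split {B : Set ℝ} (hB : MeasurableSet B) :
    lam B = (1 / 2) * lam (ph false ⁻¹' B) + (1 / 2) * lam (ph true ⁻¹' B) := by
  rw [lam_ph _ hB, lam_ph _ hB, ← mul_assoc, ← mul_assoc]
  have h2 : (1 / 2 : ℝ≥0∞) * 2 = 1 := by
    rw [one_div]; exact ENNReal.inv_mul_cancel (by norm_num) (by norm_num)
  rw [h2, one_mul, one_mul, lam, Measure.restrict_apply hB]
  have h3 : B ∩ Set.Ioc 0 1 = (B ∩ Set.Ioc (bv false / 2) ((bv false + 1) / 2)) ∪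
      (B ∩ Set.Ioc (bv true / 2) ((bv true + 1) / 2)) := by
    rw [← Set.inter_union_distrib_left]
    congr 1
    simp only [bv_false, bv_true]
    norm_num
  rw [h3]
  refine measure_union ?_ (hB.inter measurableSet_Ioc)
  rw [Set.disjoint_left]
  rintro x ⟨-, hx⟩ ⟨-, hx'⟩
  simp only [bv_false, bv_true, Set.mem_Ioc] at hx hx'
  linarith [hx.2, hx'.1]

lemma map_split {f : ℝ → ℝ} (hf : Measurable f) :
    Measure.map f lam = (1 / 2 : ℝ≥0∞) • Measure.map (fun x => f (ph false x)) lam +
      (1 / 2 : ℝ≥0∞) • Measure.map (fun x => f (ph true x)) lam := by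
  ext B hB
  have h0 : Measurable fun x => f (ph false x) := hf.comp (ph_measurable false)
  have h1 : Measurable fun x => f (ph true x) := hf.comp (ph_measurable true)
  rw [Measure.map_apply hf hB, lam_split (hf hB), Measure.add_apply, Measure.smul_apply,
    Measure.smul_apply, Measure.map_apply h0 hB, Measure.map_apply h1 hB]
  rfl

/-! ### The maps do not charge `0` -/

lemma T_ph_false_ae (p : Bool) : (fun x => T p (ph false x)) =ᵐ[lam] T (!p) := by
  filter_upwards [lam_ae_mem] with x hx
  exact T_ph_false hx.2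

lemma T_ph_true_ae (p : Bool) : (fun x => T p (ph true x)) =ᵐ[lam] fun x => ph p (T (!p) x) := by
  filter_upwards [lam_ae_mem] with x hx
  exact T_ph_true hx.1

lemma map_T_split (p : Bool) :
    Measure.map (T p) lam = (1 / 2 : ℝ≥0∞) • Measure.map (T (!p)) lam +
      (1 / 2 : ℝ≥0∞) • Measure.map (fun x => ph p (T (!p) x)) lam := by
  rw [map_split (T_measurable p), Measure.map_congr (T_ph_false_ae p),
    Measure.map_congr (T_ph_true_ae p)]

lemma T_pos_ae (p : Bool) : ∀ᵐ x ∂lam, 0 < T p x := by
  have hm : ∀ q : Bool, MeasurableSet {x | T q x = 0} := fun q =>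
    (T_measurable q) (measurableSet_singleton 0)
  have h0 : ∀ q : Bool, (Measure.map (T q) lam) {0} = lam {x | T q x = 0} := fun q => by
    rw [Measure.map_apply (T_measurable q) (measurableSet_singleton 0)]; rfl
  have h1 : ∀ q : Bool, (Measure.map (fun x => ph q (T (!q) x)) lam) {0} =
      lam {x | ph q (T (!q) x) = 0} := fun q => by
    have hmq : Measurable fun x => ph q (T (!q) x) := (ph_measurable q).comp (T_measurable _)
    rw [Measure.map_apply hmq (measurableSet_singleton 0)]
    rfl
  have h1f : (Measure.map (fun x => ph false (T true x)) lam) {0} =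
      lam {x | ph false (T true x) = 0} := h1 false
  have h1t : (Measure.map (fun x => ph true (T false x)) lam) {0} =
      lam {x | ph true (T false x) = 0} := h1 true
  have e1 : lam {x | T false x = 0} = lam {x | T true x = 0} := by
    have := congrArg (fun m : Measure ℝ => m {0}) (map_T_split false)
    simp only [Measure.add_apply, Measure.smul_apply, smul_eq_mul, h0, Bool.not_false, h1f] at this
    have h2 : {x | ph false (T true x) = 0} = {x | T true x = 0} := by
      ext x; simp [ph]
    rw [h2, ← add_mul, one_div, ENNReal.inv_two_add_inv_two, one_mul] at this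
    exact this
  have e2 : lam {x | T true x = 0} = (1 / 2) * lam {x | T false x = 0} := by
    have := congrArg (fun m : Measure ℝ => m {0}) (map_T_split true)
    simp only [Measure.add_apply, Measure.smul_apply, smul_eq_mul, h0, Bool.not_true, h1t] at this
    have h2 : {x | ph true (T false x) = 0} = ∅ := by
      ext x
      simp only [ph, bv_true, Set.mem_ofPred_eq, Set.mem_empty_iff_false, iff_false]
      have := T_nonneg false x
      linarith
    rw [h2, measure_empty, mul_zero, add_zero] at this
    exact this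
  have e3 : lam {x | T false x = 0} = 0 := by
    by_contra hne
    have hfin : lam {x | T false x = 0} ≠ ∞ := measure_ne_top _ _
    rw [e1, e2] at hne
    have h4 : (1 / 2) * lam {x | T false x = 0} < lam {x | T false x = 0} := by
      have h5 : lam {x | T false x = 0} ≠ 0 := fun h => hne (by rw [h, mul_zero])
      calc (1 / 2) * lam {x | T false x = 0} < 1 * lam {x | T false x = 0} := by
            refine (ENNReal.mul_lt_mul_iff_left h5 hfin).mpr ?_
            rw [one_div]
            exact ENNReal.inv_lt_one.mpr (by norm_num)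
        _ = _ := one_mul _
    rw [← e2, ← e1] at h4
    exact lt_irrefl _ h4
  have e4 : lam {x | T true x = 0} = 0 := by rw [← e1, e3]
  have e5 : lam {x | T p x = 0} = 0 := by cases p <;> assumption
  have : ∀ᵐ x ∂lam, ¬ (T p x = 0) := by
    rw [ae_iff]
    simpa using e5
  filter_upwards [this] with x hx
  exact lt_of_le_of_ne (T_nonneg p x) (Ne.symm hx)

lemma T_mem_ae (p : Bool) : ∀ᵐ x ∂lam, T p x ∈ Set.Ioc (0 : ℝ) 1 := by
  filter_upwards [T_pos_ae p] with x hx
  exact ⟨hx, T_le_one p x⟩

/-! ### The laws of the compositions of two maps -/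

/-- the law of `T p' ∘ T p` -/
noncomputable def kap (p' p : Bool) : Measure ℝ := Measure.map (fun x => T p' (T p x)) lam

lemma TT_measurable (p' p : Bool) : Measurable fun x => T p' (T p x) :=
  (T_measurable p').comp (T_measurable p)

instance kap_prob (p' p : Bool) : IsProbabilityMeasure (kap p' p) :=
  Measure.isProbabilityMeasure_map (TT_measurable p' p).aemeasurable

lemma TT_ph_false_ae (p' p : Bool) :
    (fun x => T p' (T p (ph false x))) =ᵐ[lam] fun x => T p' (T (!p) x) := by
  filter_upwards [lam_ae_mem] with x hx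
  rw [T_ph_false hx.2]

lemma TT_ph_true_false_ae (p' : Bool) :
    (fun x => T p' (T false (ph true x))) =ᵐ[lam] fun x => T (!p') (T true x) := by
  filter_upwards [lam_ae_mem] with x hx
  rw [T_ph_true hx.1, T_ph_false (T_le_one _ _)]
  rfl

lemma TT_ph_true_true_ae (p' : Bool) :
    (fun x => T p' (T true (ph true x))) =ᵐ[lam] fun x => ph p' (T (!p') (T false x)) := by
  filter_upwards [lam_ae_mem, T_pos_ae false] with x hx h0
  rw [T_ph_true hx.1, Bool.not_true, T_ph_true h0]

lemma kap_false (p' : Bool) :
    kap p' false = (1 / 2 : ℝ≥0∞) • kap p' true + (1 / 2 : ℝ≥0∞) • kap (!p') true := by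
  unfold kap
  rw [map_split (TT_measurable p' false), Measure.map_congr (TT_ph_false_ae p' false),
    Measure.map_congr (TT_ph_true_false_ae p')]
  rfl

lemma kap_true (p' : Bool) :
    kap p' true = (1 / 2 : ℝ≥0∞) • kap p' false +
      (1 / 2 : ℝ≥0∞) • Measure.map (ph p') (kap (!p') false) := by
  unfold kap
  rw [map_split (TT_measurable p' true), Measure.map_congr (TT_ph_false_ae p' true),
    Measure.map_congr (TT_ph_true_true_ae p'),
    Measure.map_map (ph_measurable p') (TT_measurable (!p') false)]
  rfl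

lemma kap_tf : kap true false = kap false false := by
  rw [kap_false true, kap_false false, add_comm]
  rfl

lemma charFun_map_ph (p : Bool) (μ : Measure ℝ) [IsFiniteMeasure μ] (t : ℝ) :
    charFun (Measure.map (ph p) μ) t =
      Complex.exp (t * (bv p / 2 : ℝ) * Complex.I) * charFun μ (t / 2) := by
  rw [charFun_apply_real, charFun_apply_real,
    integral_map (ph_measurable p).aemeasurable (by fun_prop), ← integral_const_mul]
  refine integral_congr_ae (Eventually.of_forall fun x => ?_)
  simp only
  rw [← Complex.exp_add]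
  congr 1
  simp only [ph]
  push_cast
  ring

/-- A finite self-similar measure is determined by its mass. -/
lemma selfSimilar_unique {μ ν : Measure ℝ} [IsProbabilityMeasure μ] [IsProbabilityMeasure ν]
    (hμ : μ = (1 / 2 : ℝ≥0∞) • Measure.map (ph false) μ + (1 / 2 : ℝ≥0∞) • Measure.map (ph true) μ)
    (hν : ν = (1 / 2 : ℝ≥0∞) • Measure.map (ph false) ν + (1 / 2 : ℝ≥0∞) • Measure.map (ph true) ν) :
    μ = ν := by
  have key : ∀ (m : Measure ℝ) [IsProbabilityMeasure m],
      m = (1 / 2 : ℝ≥0∞) • Measure.map (ph false) m + (1 / 2 : ℝ≥0∞) • Measure.map (ph true) m →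
      ∀ t : ℝ, charFun m t = (1 / 2) * (1 + Complex.exp (t * (1 / 2) * Complex.I)) *
        charFun m (t / 2) := by
    intro m _ hm t
    have h1 : charFun m t = charFun ((1 / 2 : ℝ≥0∞) • Measure.map (ph false) m +
      (1 / 2 : ℝ≥0∞) • Measure.map (ph true) m) t := by rw [← hm]
    have hi : ∀ q : Bool, Integrable (fun x : ℝ => Complex.exp (t * x * Complex.I))
        (Measure.map (ph q) m) := by
      intro q
      have : IsProbabilityMeasure (Measure.map (ph q) m) :=
        Measure.isProbabilityMeasure_map (ph_measurable q).aemeasurable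
      refine Integrable.of_bound (C := 1) (by fun_prop) (Eventually.of_forall fun x => ?_)
      rw [← Complex.ofReal_mul, Complex.norm_exp_ofReal_mul_I]
    have h2 : charFun ((1 / 2 : ℝ≥0∞) • Measure.map (ph false) m +
      (1 / 2 : ℝ≥0∞) • Measure.map (ph true) m) t =
        (1 / 2) * charFun (Measure.map (ph false) m) t +
          (1 / 2) * charFun (Measure.map (ph true) m) t := by
      rw [charFun_apply_real, charFun_apply_real, charFun_apply_real,
        integral_add_measure ((hi false).smul_measure (by simp))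
          ((hi true).smul_measure (by simp)), integral_smul_measure, integral_smul_measure]
      simp
    rw [h1, h2, charFun_map_ph, charFun_map_ph]
    simp only [bv_false, bv_true]
    push_cast
    simp only [zero_div, mul_zero, zero_mul, Complex.exp_zero]
    ring
  have hD : ∀ t : ℝ, ‖charFun μ t - charFun ν t‖ ≤ ‖charFun μ (t / 2) - charFun ν (t / 2)‖ := by
    intro t
    rw [key μ hμ t, key ν hν t, ← mul_sub, norm_mul]
    have h3 : ‖(1 / 2 : ℂ) * (1 + Complex.exp (t * (1 / 2) * Complex.I))‖ ≤ 1 := by
      rw [norm_mul]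
      have h4 : ‖1 + Complex.exp (t * (1 / 2) * Complex.I)‖ ≤ 2 := by
        refine (norm_add_le _ _).trans ?_
        have h5 : ((t : ℂ) * (1 / 2) * Complex.I) = ((t * (1 / 2) : ℝ) : ℂ) * Complex.I := by
          push_cast; ring
        rw [h5, Complex.norm_exp_ofReal_mul_I]
        norm_num
      have h6 : ‖(1 / 2 : ℂ)‖ = 1 / 2 := by norm_num
      rw [h6]
      linarith
    calc _ ≤ 1 * ‖charFun μ (t / 2) - charFun ν (t / 2)‖ := by gcongr
      _ = _ := one_mul _
  have hDn : ∀ (n : ℕ) (t : ℝ), ‖charFun μ t - charFun ν t‖ ≤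
      ‖charFun μ (t / 2 ^ n) - charFun ν (t / 2 ^ n)‖ := by
    intro n
    induction n with
    | zero => intro t; simp
    | succ n ih =>
      intro t
      refine (ih t).trans ((hD _).trans (le_of_eq ?_))
      rw [pow_succ, div_div]
  apply Measure.ext_of_charFun
  funext t
  have hlim : Tendsto (fun n : ℕ => ‖charFun μ (t / 2 ^ n) - charFun ν (t / 2 ^ n)‖) atTop
      (𝓝 ‖charFun μ 0 - charFun ν 0‖) := by
    have hc : Continuous fun s : ℝ => ‖charFun μ s - charFun ν s‖ :=
      (continuous_charFun.sub continuous_charFun).norm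
    have h0 : Tendsto (fun n : ℕ => t / 2 ^ n) atTop (𝓝 0) := by
      have := tendsto_pow_atTop_nhds_zero_of_lt_one (show (0 : ℝ) ≤ 1 / 2 by norm_num)
        (by norm_num)
      have h1 := this.const_mul t
      rw [mul_zero] at h1
      refine h1.congr fun n => ?_
      rw [one_div_pow]; ring
    exact (hc.tendsto 0).comp h0
  have h0 : ‖charFun μ 0 - charFun ν 0‖ = 0 := by simp
  rw [h0] at hlim
  have h1 : ‖charFun μ t - charFun ν t‖ ≤ 0 := ge_of_tendsto' hlim fun n => hDn n t
  exact sub_eq_zero.mp (norm_le_zero_iff.mp h1)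

end Pool.Agent.Lib.MP_7df46e_an
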