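import Pool.Agent.Lib.MP_7df46e_an.Basic

open MeasureTheory Filter Topology

namespace Pool.Agent.Lib.MP_7df46e_an

/-- putting the bit `p` in front of `x` -/
noncomputable def ph (p : Bool) (x : ℝ) : ℝ := (bv p + x) / 2

/-- putting the word `w` in front of `x` -/
noncomputable def Phi : List Bool → ℝ → ℝ
  | [], x => x
  | p :: t, x => ph p (Phi t x)

lemma ph_continuous (p : Bool) : Continuous (ph p) := by
  unfold ph; fun_prop

lemma Phi_continuous (w : List Bool) : Continuous (Phi w) := by
  induction w with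
  | nil => exact continuous_id
  | cons p t ih => exact (ph_continuous p).comp ih

lemma Phi_append (v w : List Bool) (x : ℝ) : Phi (v ++ w) x = Phi v (Phi w x) := by
  induction v with
  | nil => rfl
  | cons p t ih => simp [Phi, ih]

lemma Phi_eq (w : List Bool) (x : ℝ) : Phi w x = Phi w 0 + x / 2 ^ w.length := by
  induction w with
  | nil => simp [Phi]
  | cons p t ih =>
    simp only [Phi, ph, List.length_cons]
    rw [ih, pow_succ]
    field_simp
    ring

lemma ph_mem_Ioc {p : Bool} {x : ℝ} (h : x ∈ Set.Ioc (0 : ℝ) 1) : ph p x ∈ Set.Ioc (0 : ℝ) 1 := by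
  unfold ph
  have h1 := bv_nonneg p
  have h2 := bv_le_one p
  exact ⟨by linarith [h.1], by linarith [h.2]⟩

lemma Phi_mem_Ioc {w : List Bool} {x : ℝ} (h : x ∈ Set.Ioc (0 : ℝ) 1) :
    Phi w x ∈ Set.Ioc (0 : ℝ) 1 := by
  induction w with
  | nil => exact h
  | cons p t ih => exact ph_mem_Ioc ih

lemma T_ph_false {p : Bool} {x : ℝ} (h : x ≤ 1) : T p (ph false x) = T (!p) x := by
  have h1 : ph false x ≤ 1 / 2 := by unfold ph; simp; linarith
  rw [T_of_le h1]
  congr 1
  unfold ph; simp; ring

lemma T_ph_true {p : Bool} {x : ℝ} (h : 0 < x) : T p (ph true x) = ph p (T (!p) x) := by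
  have h1 : 1 / 2 < ph true x := by unfold ph; simp; linarith
  rw [T_of_gt h1]
  have h2 : 2 * ph true x - 1 = x := by unfold ph; simp; ring
  rw [h2]
  rfl

/-- the substitution on words, with the parity offset `p` -/
def rw' : Bool → List Bool → List Bool
  | _, [] => []
  | p, false :: t => rw' (!p) t
  | p, true :: t => p :: rw' (!p) t

/-- the parity offset after the word -/
def ep : Bool → List Bool → Bool
  | p, [] => p
  | p, _ :: t => ep (!p) t

lemma T_Phi (w : List Bool) : ∀ {p : Bool} {x : ℝ}, x ∈ Set.Ioc (0 : ℝ) 1 →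
    T p (Phi w x) = Phi (rw' p w) (T (ep p w) x) := by
  induction w with
  | nil => intro p x _; rfl
  | cons q t ih =>
    intro p x hx
    have h1 := Phi_mem_Ioc (w := t) hx
    cases q with
    | false =>
      simp only [Phi, rw', ep]
      rw [T_ph_false h1.2]
      exact ih hx
    | true =>
      simp only [Phi, rw', ep]
      rw [T_ph_true h1.1, ih hx]

/-- every word is in the range of the substitution -/
lemma rw'_surj (u : List Bool) : ∀ p : Bool, ∃ w, rw' p w = u := by
  induction u with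
  | nil => intro p; exact ⟨[], rfl⟩
  | cons q t ih =>
    intro p
    by_cases h : p = q
    · subst h
      obtain ⟨w, hw⟩ := ih (!p)
      exact ⟨true :: w, by simp [rw', hw]⟩
    · obtain ⟨w, hw⟩ := ih p
      refine ⟨false :: true :: w, ?_⟩
      simp only [rw', Bool.not_not, hw]
      cases p <;> cases q <;> simp_all

lemma rw'_append (w : List Bool) : ∀ (p : Bool) (v : List Bool),
    rw' p (w ++ v) = rw' p w ++ rw' (ep p w) v := by
  induction w with
  | nil => intro p v; rfl
  | cons q t ih =>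
    intro p v
    cases q <;> simp [rw', ep, ih]

lemma rw'_length_le (w : List Bool) : ∀ p : Bool, (rw' p w).length ≤ w.length := by
  induction w with
  | nil => intro p; simp [rw']
  | cons q t ih =>
    intro p
    cases q
    · simp only [rw', List.length_cons]; exact (ih _).trans (Nat.le_succ _)
    · simp only [rw', List.length_cons]; exact Nat.succ_le_succ (ih _)

lemma rw'_rw'_length_lt {w : List Bool} (h : w ≠ []) :
    (rw' false (rw' false w)).length < w.length := by
  cases w with
  | nil => exact absurd rfl h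
  | cons q t =>
    cases q
    · simp only [rw', List.length_cons, Bool.not_false]
      exact Nat.lt_succ_of_le ((rw'_length_le _ _).trans (rw'_length_le _ _))
    · simp only [rw', List.length_cons, Bool.not_false]
      exact Nat.lt_succ_of_le ((rw'_length_le _ _).trans (rw'_length_le _ _))

/-- dyadic half-open interval -/
def J (w : List Bool) : Set ℝ := Phi w '' Set.Ioc 0 1

lemma exists_word (n : ℕ) : ∀ x ∈ Set.Ioc (0 : ℝ) 1, ∃ w : List Bool, w.length = n ∧ x ∈ J w := by
  induction n with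
  | zero => intro x hx; exact ⟨[], rfl, x, hx, rfl⟩
  | succ n ih =>
    intro x hx
    rcases le_or_gt x (1 / 2) with h | h
    · obtain ⟨w, hw, y, hy, hxy⟩ := ih (2 * x) ⟨by linarith [hx.1], by linarith⟩
      refine ⟨false :: w, by simp [hw], y, hy, ?_⟩
      simp only [Phi, ph, hxy, bv_false]; ring
    · obtain ⟨w, hw, y, hy, hxy⟩ := ih (2 * x - 1) ⟨by linarith, by linarith [hx.2]⟩
      refine ⟨true :: w, by simp [hw], y, hy, ?_⟩
      simp only [Phi, ph, hxy, bv_true]; ring

lemma J_dist {w : List Bool} {x y : ℝ} (hx : x ∈ J w) (hy : y ∈ J w) :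
    |x - y| < 1 / 2 ^ w.length := by
  obtain ⟨a, ha, rfl⟩ := hx
  obtain ⟨b, hb, rfl⟩ := hy
  rw [Phi_eq w a, Phi_eq w b]
  have : Phi w 0 + a / 2 ^ w.length - (Phi w 0 + b / 2 ^ w.length) = (a - b) / 2 ^ w.length := by
    ring
  rw [this, abs_div, abs_of_pos (show (0 : ℝ) < 2 ^ w.length by positivity)]
  gcongr
  rw [abs_lt]
  constructor <;> linarith [ha.1, ha.2, hb.1, hb.2]

lemma J_subset_ball {x : ℝ} (hx : x ∈ Set.Ioc (0 : ℝ) 1) {ε : ℝ} (hε : 0 < ε) :
    ∃ w : List Bool, x ∈ J w ∧ J w ⊆ Metric.ball x ε := by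
  obtain ⟨n, hn⟩ := exists_pow_lt_of_lt_one hε (show (1 / 2 : ℝ) < 1 by norm_num)
  obtain ⟨w, hw, hxw⟩ := exists_word n x hx
  refine ⟨w, hxw, fun y hy => ?_⟩
  rw [Metric.mem_ball, Real.dist_eq]
  refine (J_dist hy hxw).trans ?_
  rw [hw, ← one_div_pow]
  exact hn

/-- the open set of points of the unit interval in the interior of a dyadic interval -/
def JO (w : List Bool) : Set unitInterval := {x | (x : ℝ) ∈ Phi w '' Set.Ioo 0 1}

lemma Phi_image_Ioo (w : List Bool) :
    Phi w '' Set.Ioo 0 1 = Set.Ioo (Phi w 0) (Phi w 1) := by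
  ext x
  constructor
  · rintro ⟨y, hy, rfl⟩
    rw [Phi_eq w y, Phi_eq w 1]
    have h : (0 : ℝ) < 2 ^ w.length := by positivity
    constructor
    · have := div_pos hy.1 h
      linarith
    · have := (div_lt_div_iff_of_pos_right h).mpr hy.2
      linarith
  · intro hx
    rw [Phi_eq w 1] at hx
    have h : (0 : ℝ) < 2 ^ w.length := by positivity
    refine ⟨(x - Phi w 0) * 2 ^ w.length, ⟨?_, ?_⟩, ?_⟩
    · have := hx.1
      have : 0 < x - Phi w 0 := by linarith
      positivity
    · have := hx.2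
      have h2 : x - Phi w 0 < 1 / 2 ^ w.length := by linarith
      rwa [lt_div_iff₀ h] at h2
    · rw [Phi_eq]
      field_simp
      ring

lemma JO_isOpen (w : List Bool) : IsOpen (JO w) := by
  unfold JO
  rw [Phi_image_Ioo]
  exact isOpen_Ioo.preimage continuous_subtype_val

lemma JO_nonempty (w : List Bool) : (JO w).Nonempty := by
  have h : (1 / 2 : ℝ) ∈ Set.Ioc (0 : ℝ) 1 := by norm_num
  have h1 := Phi_mem_Ioc (w := w) h
  exact ⟨⟨Phi w (1 / 2), h1.1.le, h1.2⟩, 1 / 2, by norm_num, rfl⟩

lemma JO_subset {w : List Bool} {x : unitInterval} (h : x ∈ JO w) : (x : ℝ) ∈ J w := by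
  obtain ⟨y, hy, hxy⟩ := h
  exact ⟨y, ⟨hy.1, hy.2.le⟩, hxy⟩

/-- every nonempty open subset of the unit interval contains a dyadic interval -/
lemma exists_J_subset {U : Set unitInterval} (hU : IsOpen U) (hne : U.Nonempty) :
    ∃ w : List Bool, ∀ x : unitInterval, (x : ℝ) ∈ J w → x ∈ U := by
  obtain ⟨x, hx⟩ := hne
  obtain ⟨ε, hε, hball⟩ := Metric.isOpen_iff.mp hU x hx
  -- a point of `U` different from `0`
  obtain ⟨y, hy0, hyx⟩ : ∃ y : unitInterval, (0 : ℝ) < y ∧ dist y x < ε / 2 := by
    by_cases h0 : (0 : ℝ) < x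
    · exact ⟨x, h0, by simp [hε]⟩
    · have hx0 : (x : ℝ) = 0 := le_antisymm (not_lt.mp h0) x.2.1
      refine ⟨⟨min (1 / 2) (ε / 4), by positivity, (min_le_left _ _).trans (by norm_num)⟩,
        by positivity, ?_⟩
      rw [Subtype.dist_eq, Real.dist_eq, hx0, sub_zero, abs_of_pos (by positivity)]
      exact lt_of_le_of_lt (min_le_right _ _) (by linarith)
  obtain ⟨w, hw, hsub⟩ := J_subset_ball (x := (y : ℝ)) ⟨hy0, y.2.2⟩ (half_pos hε)
  refine ⟨w, fun z hz => hball ?_⟩
  have h1 := hsub hz
  rw [Metric.mem_ball] at h1 ⊢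
  calc dist z x ≤ dist z y + dist y x := dist_triangle _ _ _
    _ < ε / 2 + ε / 2 := add_lt_add h1 hyx
    _ = ε := by ring

end Pool.Agent.Lib.MP_7df46e_an
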